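import Pool.Agent.Lib.FremlinSC40.Main
import Pool.Agent.Lib.FremlinSC49.DiaCH
import Pool.Agent.Lib.RM48.Dia.Main

/-!
# MP_94b3dc_an : a model of `ZFC` where property (SC) fails in density `ω₁`

The definitions for models of set theory are in `Pool.Agent.Lib.RM48.Dia.Defs` (`◇` in a model),
`Pool.Agent.Lib.RM48.Defs` (`ZFC`), `Pool.Agent.Lib.SymZF.ZF` (`ZF`) and
`Pool.Agent.Lib.SymZF.IntDefs` (ordered pairs, `ω`); `◇` itself is in
`Pool.Agent.Lib.MP_302921_gt.Defs`; property (SC) and the density character are in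
`Pool.Agent.Lib.FremlinSC40.Defs`.
-/

set_option autoImplicit false

open Cardinal FremlinSC40

namespace Pool.Agent.Results.MP_94b3dc_an.ConsistentFailure

open Pool.Agent.Lib.SymZF Pool.Agent.Lib.RM48 Pool.Agent.Lib.MP_302921_gt

/-- (1) There is a countable well-founded model `(M, E)` of `ZFC` in which Jensen's `◇` holds.
(2) Under `◇` there is a real Banach space `X` of density `ω₁` such that `wk(X)` fails property
(SC). -/
theorem result :
    (∃ (M : Type) (E : M → M → Prop), Countable M ∧ WellFounded E ∧ IsZFC E ∧ DiamondIn E) ∧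
    (Diamond → ∃ (X : Type) (_ : NormedAddCommGroup X) (_ : NormedSpace ℝ X),
      CompleteSpace X ∧ HasDensity X (ℵ_ 1) ∧ ¬ PropertySC X) := by
  refine ⟨?_, fun h => ?_⟩
  · obtain ⟨M, E, h1, h2, _, h4, h5⟩ := exists_diamond_model
    exact ⟨M, E, h1, h2, h4, h5⟩
  · have hR : ∀ a, #(Restr (Set.univ : Set (Om → Bool)) a) ≤ ℵ_ 1 := fun a =>
      (Cardinal.mk_le_mk_of_subset (Set.subset_univ _)).trans
        (FremlinSC49.level_le_of_diamond h a)
    exact ⟨FremlinSC40.X (Set.univ : Set (Om → Bool)) (ℵ_ 1 : Cardinal.{0}).out,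
      inferInstance, inferInstance, inferInstance,
      hasDensity_X (ℵ_ 1) le_rfl hR (Cardinal.mk_out _), not_SC (ℵ_ 1) le_rfl hR (Or.inr rfl)⟩

end Pool.Agent.Results.MP_94b3dc_an.ConsistentFailure
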