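import Pool.Agent.Lib.FremlinSC49.Scat

/-!
# Property (SC) for Banach spaces whose dual can be reached from `ω₁` functionals
-/

open Set Cardinal MeasureTheory Filter Topology

namespace Pool.Agent.Results.MP_94b3dc_an.ReachableDual

open FremlinSC49 (Reach PtControlled Hereditary)

universe u v

variable (X : Type u) [NormedAddCommGroup X] [NormedSpace ℝ X]

/-- `wk(X)` has property (SC): there is a map `ψ` on sets with `ψ C ∈ C` for every non-empty
weakly compact `C ⊆ X`, such that for every complete probability space `Ω` and every map `F` from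
`Ω` to the non-empty weakly compact subsets of `X` which is scalarly measurable (for all
`x' ∈ X*` and `a ∈ ℝ` the set of `ω` for which `F ω` meets `{x : x' x > a}` is measurable),
`ψ ∘ F` is scalarly measurable. -/
def PropertySC : Prop :=
  ∃ ψ : Set X → X,
    (∀ C : Set X, C.Nonempty → IsCompact ((toWeakSpace ℝ X) '' C) → ψ C ∈ C) ∧
    ∀ (Ω : Type v) (_ : MeasurableSpace Ω) (μ : Measure Ω),
      IsProbabilityMeasure μ → μ.IsComplete →
      ∀ F : Ω → Set X,
        (∀ ω, (F ω).Nonempty ∧ IsCompact ((toWeakSpace ℝ X) '' (F ω))) →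
        (∀ (x' : X →L[ℝ] ℝ) (a : ℝ), MeasurableSet {ω | ∃ x ∈ F ω, a < x' x}) →
        ∀ x' : X →L[ℝ] ℝ, Measurable (fun ω => x' (ψ (F ω)))

/-- (a) All functionals can be reached from a set `D` of at most `ℵ₁` functionals: they belong to
the smallest set `FremlinSC49.Reach D` of functionals which contains `D`, which contains `f` if it
contains countably many functionals whose common kernel is contained in the kernel of `f`, and
which contains `Φ ω₁` if `Φ` is a weak*-sequentially continuous map from the subsets of `ω₁` into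
`X*` and it contains `Φ A` for all countable `A`. -/
def DualReachable : Prop :=
  ∃ D : Set (X →L[ℝ] ℝ), #D ≤ ℵ_ 1 ∧ ∀ f, Reach D f

/-- (b) `X*` has a norm-dense subset of cardinality at most `ℵ₁`. -/
def DualDensityLe : Prop := ∃ D : Set (X →L[ℝ] ℝ), Dense D ∧ #D ≤ ℵ_ 1

/-- (c) Some set of at most `ℵ₁` functionals separates the points of `X` (this holds if `X` has
density at most `ℵ₁`), and `X` has Corson's property (C): every family of closed convex sets with
empty intersection has a countable subfamily with empty intersection. -/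
def SeparatedAndC : Prop :=
  (∃ D : Set (X →L[ℝ] ℝ), #D ≤ ℵ_ 1 ∧ ∀ x : X, (∀ c ∈ D, c x = 0) → x = 0) ∧
    ∀ 𝒞 : Set (Set X), (∀ C ∈ 𝒞, IsClosed C ∧ Convex ℝ C) → ⋂₀ 𝒞 = ∅ →
      ∃ 𝒟 ⊆ 𝒞, 𝒟.Countable ∧ ⋂₀ 𝒟 = ∅

/-- (d) `X` is an unconditional sum of at most `ℵ₁` spaces `Y i` with (a), (b) or (c): there are
bounded operators `R i : X → Y i` and `S i : Y i → X` with `f x = ∑ f (S i (R i x))` (absolutely
convergent) for all `x ∈ X` and `f ∈ X*`. For example `X` has an unconditional basis of
cardinality at most `ℵ₁`, or an unconditional decomposition into at most `ℵ₁` subspaces with (a),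
(b) or (c). -/
def UnconditionalSum : Prop :=
  ∃ (I : Type u) (Y : I → Type u) (_ : ∀ i, NormedAddCommGroup (Y i))
    (_ : ∀ i, NormedSpace ℝ (Y i)) (R : ∀ i, X →L[ℝ] Y i) (S : ∀ i, Y i →L[ℝ] X),
    #I ≤ ℵ_ 1 ∧ (∀ i, DualReachable (Y i) ∨ DualDensityLe (Y i) ∨ SeparatedAndC (Y i)) ∧
      ∀ (x : X) (f : X →L[ℝ] ℝ), Summable (fun i => |f (S i (R i x))|) ∧
        f x = ∑' i, f (S i (R i x))

/-- (e) `X` is isomorphic to `C(K)`, where `K` is the product of at most `ℵ₁` compact Hausdorff
spaces `K i` each of which has a set `S i` of at most `ℵ₁` points such that every functional on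
`C(K i)` is supported by the closure of a countable subset of `S i`. -/
def ProductType : Prop :=
  ∃ (I : Type u) (K : I → Type u) (_ : ∀ i, TopologicalSpace (K i))
    (_ : ∀ i, CompactSpace (K i)) (_ : ∀ i, T2Space (K i)),
    #I ≤ ℵ_ 1 ∧ (∀ i, PtControlled (K i)) ∧ Nonempty (X ≃L[ℝ] C(∀ i, K i, ℝ))

/-- (f) `X` is isomorphic to `C(L)`, where `L` is a closed subset of a product of at most `ℵ₁`
compact metrizable spaces `K i` such that, for some point `p` of the product, `L` is invariant
under the replacement of any set of coordinates by those of `p` (for example an adequate compact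
family of subsets of a set of cardinality at most `ℵ₁`). -/
def HereditaryType : Prop :=
  ∃ (I : Type u) (K : I → Type u) (_ : ∀ i, TopologicalSpace (K i))
    (_ : ∀ i, CompactSpace (K i)) (_ : ∀ i, T2Space (K i))
    (_ : ∀ i, SecondCountableTopology (K i)) (p : ∀ i, K i) (L : Set (∀ i, K i))
    (_ : CompactSpace L),
    #I ≤ ℵ_ 1 ∧ Hereditary p L ∧ Nonempty (X ≃L[ℝ] C(L, ℝ))

/-- Separable compact spaces and scattered compact Hausdorff spaces of cardinality at most `ℵ₁`
are allowed as factors in (e). -/
theorem ptControlled_examples (K : Type u) [TopologicalSpace K] [CompactSpace K] [T2Space K]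
    (h : TopologicalSpace.SeparableSpace K ∨ (#K ≤ ℵ_ 1 ∧ FremlinSC49.ScatteredSpace K)) :
    PtControlled K := by
  rcases h with h | ⟨h1, h2⟩
  · exact FremlinSC49.ptControlled_of_separable K
  · exact FremlinSC49.ptControlled_of_scattered K h1 h2

variable {X} in
theorem good_of_abc (h : DualReachable X ∨ DualDensityLe X ∨ SeparatedAndC X) :
    FremlinSC49.Good X := by
  rcases h with h | ⟨D, hd, hD⟩ | ⟨⟨D, hD, hsep⟩, hC⟩
  · exact h
  · exact FremlinSC49.good_of_controlled D hD (FremlinSC49.controlled_of_dense D hd)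
  · exact FremlinSC49.good_of_controlled D hD (FremlinSC49.controlled_of_propertyC hC D hsep)

/-- **Property (SC) for subspaces of spaces with reachable dual.** Let `Z` be a Banach space with
(a), (b), (c), (d), (e) or (f), and let `X` be isomorphic to a subspace of `Z` (by `T`). Then
`wk(X)` has property (SC). -/
theorem result (Z : Type u) [NormedAddCommGroup Z] [NormedSpace ℝ Z] [CompleteSpace Z]
    (T : X →L[ℝ] Z) (c : ℝ) (hc : 0 < c) (hT : ∀ x, c * ‖x‖ ≤ ‖T x‖)
    (h : DualReachable Z ∨ DualDensityLe Z ∨ SeparatedAndC Z ∨ UnconditionalSum Z ∨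
      ProductType Z ∨ HereditaryType Z) : PropertySC.{u, v} X := by
  have hZ : FremlinSC49.Good Z := by
    rcases h with h | h | h | ⟨I, Y, _, _, R, S, hI, hY, hRS⟩ | ⟨I, K, _, _, _, hI, hK, ⟨e⟩⟩ |
      ⟨I, K, _, _, _, _, p, L, hLc, hI, hL, ⟨e⟩⟩
    · exact good_of_abc (Or.inl h)
    · exact good_of_abc (Or.inr (Or.inl h))
    · exact good_of_abc (Or.inr (Or.inr h))
    · exact FremlinSC49.good_uncond hI Y R S (fun x f => (hRS x f).1) (fun x f => (hRS x f).2)
        fun i => good_of_abc (hY i)
    · exact FremlinSC49.good_of_equiv (FremlinSC49.good_prod hI hK) e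
    · have hcl : IsClosed L := (isCompact_iff_compactSpace.2 hLc).isClosed
      exact FremlinSC49.good_of_equiv (FremlinSC49.good_hereditary hI p L hcl hL) e
  obtain ⟨D, hD, hr⟩ := FremlinSC49.good_of_embedding hZ T c hc hT
  exact FremlinSC49.sc_of_reach.{u, v} D hD hr

end Pool.Agent.Results.MP_94b3dc_an.ReachableDual
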