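import Pool.Agent.Lib.FremlinSC40.Main
import Pool.Agent.Lib.FremlinSC49.TreeCtl

/-!
# MP_94b3dc_an : property (SC) for the spaces of binary trees of height omega_1
-/

open Cardinal FremlinSC40

namespace Pool.Agent.Results.MP_94b3dc_an.TreeSpaces

/-- The cofinal branches of the binary tree whose level `a < ω₁` is the set `T a` of functions
`{η : η < a} → {0,1}`: all functions `b : ω₁ → {0,1}` with `b` restricted to `{η : η < a}` in `T a`
for all `a < ω₁`. -/
def Branches (T : (a : Om) → Set (Set.Iio a → Bool)) : Set (Om → Bool) :=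
  {b | ∀ a : Om, (fun η : Set.Iio a => b η) ∈ T a}

/-- The Banach space of the tree `T`: the closed linear span, in the space of all bounded real
functions on the disjoint union of `Branches T` and a set `K` of cardinality `κ` (supremum norm),
of the indicator functions of the sets of all branches through a node, and of the indicator
functions of the points of `K`. (So it is the sum of the span of the first functions and of
`c₀(κ)`, which makes the density equal to `κ`.) -/
abbrev TreeSpace (κ : Cardinal.{0}) (T : (a : Om) → Set (Set.Iio a → Bool)) : Type :=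
  X (Branches T) κ.out

/-- Let `κ ≥ ℵ₁` and let `T` be a binary tree of height `ω₁` with at most `κ` nodes on each level.
Then the space of `T` has density `κ`, and `wk(X)` fails property (SC) for this space `X` if `T` has
more than `κ` cofinal branches or if `T` is the full binary tree. If `κ = ℵ₁` then `wk(X)` has
property (SC) if and only if `T` has at most `ℵ₁` cofinal branches. -/
theorem result (κ : Cardinal.{0}) (hκ : ℵ_ 1 ≤ κ) (T : (a : Om) → Set (Set.Iio a → Bool))
    (hT : ∀ a : Om, #(T a) ≤ κ) :
    CompleteSpace (TreeSpace κ T) ∧ HasDensity (TreeSpace κ T) κ ∧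
      (κ < #(Branches T) ∨ (∀ a, T a = Set.univ) → ¬ PropertySC (TreeSpace κ T)) ∧
      (κ = ℵ_ 1 → (PropertySC (TreeSpace κ T) ↔ #(Branches T) ≤ ℵ_ 1)) := by
  have hsub : ∀ a, Restr (Branches T) a ⊆ T a := by
    rintro a _ ⟨b, hb, rfl⟩
    exact hb a
  have hR : ∀ a, #(Restr (Branches T) a) ≤ κ := fun a =>
    (Cardinal.mk_le_mk_of_subset (hsub a)).trans (hT a)
  have hneg : (κ < #(Branches T) ∨ (∀ a, T a = Set.univ) → ¬ PropertySC (TreeSpace κ T)) := by
    intro h
    apply not_SC κ hκ hR
    rcases h with h | h
    · exact Or.inl h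
    · right
      ext b
      simp [Branches, h]
  refine ⟨inferInstance, hasDensity_X κ hκ hR (Cardinal.mk_out κ), hneg, ?_⟩
  intro hκ1
  constructor
  · intro hSC
    by_contra hlt
    push Not at hlt
    exact hneg (Or.inl (hκ1 ▸ hlt)) hSC
  · intro hB
    obtain ⟨D, hD, hc⟩ := FremlinSC49.controlled_X (B := Branches T) (K := κ.out)
      (fun b hb a => hsub a (hb a)) (fun a => hκ1 ▸ hR a) hB (by rw [Cardinal.mk_out, hκ1])
    obtain ⟨ψ, h1, h2⟩ := FremlinSC49.strongSC_of_controlled.{0, 0} D hD hc
    exact ⟨ψ, h1, fun Ω m _ _ _ F hF hm x' => h2 Ω m F hF hm x'⟩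

end Pool.Agent.Results.MP_94b3dc_an.TreeSpaces
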